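import Mathlib

open scoped ENNReal NNReal InnerProductSpace
open Finset

namespace Pool.Agent.Results.MP_c77635_an.NoLorentzSqueezing

section definitions

variable {𝕜 : Type*} [RCLike 𝕜] {H : Type*} [NormedAddCommGroup H] [NormedSpace 𝕜 H]

/-- `x` is a basis of `H` (in the sense of the problem) with biorthogonal functionals `xs`. -/
structure IsBasis (x : ℕ → H) (xs : ℕ → (H →L[𝕜] 𝕜)) : Prop where
  biorthogonal : ∀ n k, xs n (x k) = if n = k then 1 else 0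
  dense_span : Dense (Submodule.span 𝕜 (Set.range x) : Set H)
  separating : ∀ f, (∀ n, xs n f = 0) → f = 0
  bounded : ∃ C : ℝ, ∀ n, ‖x n‖ ≤ C ∧ ‖xs n‖ ≤ C

/-- The democracy function `φ_m` of a sequence `y` in a normed space. -/
noncomputable def phi (𝕜 : Type*) [RCLike 𝕜] {E : Type*} [NormedAddCommGroup E] [NormedSpace 𝕜 E]
    (y : ℕ → E) (m : ℕ) : ℝ≥0∞ :=
  ⨆ (A : Finset ℕ) (_ : A.card ≤ m) (ε : ℕ → 𝕜) (_ : ∀ n, ‖ε n‖ = 1), ‖∑ n ∈ A, ε n • y n‖ₑ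

/-- Bidemocracy: `sup_m φ_m φ*_m / m < ∞`. -/
def Bidemocratic (x : ℕ → H) (xs : ℕ → (H →L[𝕜] 𝕜)) : Prop :=
  ∃ C : ℝ≥0, ∀ m : ℕ, phi 𝕜 x m * phi 𝕜 xs m ≤ C * m

/-- `rearr a n` is the `(n+1)`-st term of the non-increasing rearrangement of `(|a_k|)`. -/
noncomputable def rearr (a : ℕ → 𝕜) (n : ℕ) : ℝ≥0∞ :=
  sInf {t : ℝ≥0∞ | {k : ℕ | t < ‖a k‖ₑ}.encard ≤ n}

/-- The quasi-norm of the Lorentz sequence space `ℓ_{2,s}`, `0 < s < ∞`. -/
noncomputable def lorentz (s : ℝ) (a : ℕ → 𝕜) : ℝ≥0∞ :=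
  (∑' n : ℕ, rearr a n ^ s * ((n : ℝ≥0∞) + 1) ^ (s / 2 - 1)) ^ (1 / s)

variable (𝕜) in
/-- The embedding of `ℓ_{2,q}` into `H` induced by `x`. -/
def LorentzInto (q : ℝ) (x : ℕ → H) : Prop :=
  ∃ C : ℝ≥0, ∀ a : ℕ →₀ 𝕜, ‖a.sum fun n t => t • x n‖ₑ ≤ C * lorentz q a

/-- The embedding of `H` into `ℓ_{2,r}` induced by `x`, with coordinate functionals `xs`. -/
def IntoLorentz (r : ℝ) (xs : ℕ → (H →L[𝕜] 𝕜)) : Prop :=
  ∃ C : ℝ≥0, ∀ f : H, lorentz r (fun n => xs n f) ≤ C * ‖f‖ₑ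

/-- `H` has a bidemocratic basis such that the embedding of `ℓ_{2,q}` into `H` fails for all `q > 1`
and the embedding of `H` into `ℓ_{2,r}` fails for all `0 < r < ∞`. -/
def HasUnsqueezableBasis (𝕜 : Type*) [RCLike 𝕜] (H : Type*) [NormedAddCommGroup H]
    [NormedSpace 𝕜 H] : Prop :=
  ∃ (x : ℕ → H) (xs : ℕ → (H →L[𝕜] 𝕜)), IsBasis x xs ∧ Bidemocratic x xs ∧
    (∀ q : ℝ, 1 < q → ¬ LorentzInto 𝕜 q x) ∧ (∀ r : ℝ, 0 < r → ¬ IntoLorentz r xs)

end definitions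

/-- The Hilbert space `ℓ₂` over the real or complex scalars `𝕜`. -/
abbrev Ell (𝕜 : Type*) [RCLike 𝕜] := lp (fun _ : ℕ => 𝕜) 2

variable {𝕜 : Type*} [RCLike 𝕜]

/-! ### Blocks -/

/-- block number of `n` -/
def kap (n : ℕ) : ℕ := Nat.log 2 (n + 1)

/-- the `k`-th block -/
def B (k : ℕ) : Finset ℕ := Finset.Ico (2 ^ k - 1) (2 ^ (k + 1) - 1)

lemma mem_B {n k : ℕ} : n ∈ B k ↔ kap n = k := by
  unfold B kap
  rw [Finset.mem_Ico, Nat.log_eq_iff (Or.inr ⟨by norm_num, by omega⟩)]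
  have h1 : 1 ≤ 2 ^ k := Nat.one_le_two_pow
  have h2 : 1 ≤ 2 ^ (k + 1) := Nat.one_le_two_pow
  omega

/-- the weight -/
noncomputable def v (n : ℕ) : ℝ := 1 / √(((n + 1 - 2 ^ (kap n) : ℕ) : ℝ) + 1)

lemma kap_idx {k j : ℕ} (hj : j < 2 ^ k) : kap (2 ^ k - 1 + j) = k := by
  rw [← mem_B, B, Finset.mem_Ico]
  have h1 : 1 ≤ 2 ^ k := Nat.one_le_two_pow
  have h2 : 2 ^ (k + 1) = 2 * 2 ^ k := by ring
  omega

lemma v_idx {k j : ℕ} (hj : j < 2 ^ k) : v (2 ^ k - 1 + j) = 1 / √((j : ℝ) + 1) := by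
  unfold v
  rw [kap_idx hj]
  have h1 : 1 ≤ 2 ^ k := Nat.one_le_two_pow
  have : 2 ^ k - 1 + j + 1 - 2 ^ k = j := by omega
  rw [this]

lemma v_pos (n : ℕ) : 0 < v n := by
  unfold v; positivity

lemma v_le_one (n : ℕ) : v n ≤ 1 := by
  unfold v
  rw [div_le_one (by positivity)]
  rw [Real.one_le_sqrt]
  have : (0 : ℝ) ≤ ((n + 1 - 2 ^ (kap n) : ℕ) : ℝ) := Nat.cast_nonneg _
  linarith

/-- squared norm of the weight on the `k`-th block: a harmonic number -/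
noncomputable def L (k : ℕ) : ℝ := ∑ j ∈ range (2 ^ k), 1 / ((j : ℝ) + 1)

lemma sum_B {M : Type*} [AddCommMonoid M] (F : ℕ → M) (k : ℕ) :
    ∑ n ∈ B k, F n = ∑ j ∈ range (2 ^ k), F (2 ^ k - 1 + j) := by
  unfold B
  rw [Finset.sum_Ico_eq_sum_range]
  have h1 : 1 ≤ 2 ^ k := Nat.one_le_two_pow
  have h2 : 2 ^ (k + 1) = 2 * 2 ^ k := by ring
  have : 2 ^ (k + 1) - 1 - (2 ^ k - 1) = 2 ^ k := by omega
  rw [this]

lemma sum_v_sq (k : ℕ) : ∑ n ∈ B k, v n ^ 2 = L k := by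
  rw [sum_B, L]
  apply Finset.sum_congr rfl
  intro j hj
  rw [v_idx (Finset.mem_range.1 hj), div_pow, Real.sq_sqrt (by positivity), one_pow]

lemma one_le_L (k : ℕ) : 1 ≤ L k := by
  unfold L
  have h1 : 0 < 2 ^ k := by positivity
  have : ∑ j ∈ range 1, 1 / ((j : ℝ) + 1) ≤ ∑ j ∈ range (2 ^ k), 1 / ((j : ℝ) + 1) := by
    apply Finset.sum_le_sum_of_subset_of_nonneg
    · intro a ha
      simp only [Finset.mem_range] at ha ⊢
      omega
    · intros; positivity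
  simpa using this

lemma L_pos (k : ℕ) : 0 < L k := lt_of_lt_of_le one_pos (one_le_L k)

lemma tendsto_L : Filter.Tendsto L Filter.atTop Filter.atTop := by
  have h := Real.tendsto_sum_range_one_div_nat_succ_atTop
  exact h.comp (tendsto_pow_atTop_atTop_of_one_lt (r := 2) (by norm_num))

/-- the normalising constant -/
noncomputable def c (k : ℕ) : ℝ := 1 / √(L k)

lemma c_pos (k : ℕ) : 0 < c k := by
  unfold c
  have := L_pos k
  positivity

lemma c_sq_mul_L (k : ℕ) : c k ^ 2 * L k = 1 := by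
  unfold c
  have := L_pos k
  rw [div_pow, Real.sq_sqrt this.le]
  field_simp

lemma c_mul_L (k : ℕ) : c k * L k = √(L k) := by
  unfold c
  have := L_pos k
  rw [one_div, inv_mul_eq_div, Real.div_sqrt]

/-- rearrangement bound for the weight -/
lemma sum_inv_sqrt_le (S : Finset ℕ) :
    ∑ j ∈ S, 1 / √((j : ℝ) + 1) ≤ 2 * √(S.card : ℝ) := by
  induction S using Finset.induction_on_max with
  | empty => simp
  | insert a S ha ih =>
    have hnot : a ∉ S := fun h => (ha a h).false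
    rw [Finset.sum_insert hnot, Finset.card_insert_of_notMem hnot]
    have hcard : S.card ≤ a := by
      have : S ⊆ range a := fun b hb => Finset.mem_range.2 (ha b hb)
      simpa using Finset.card_le_card this
    have hcard' : (S.card : ℝ) ≤ a := by exact_mod_cast hcard
    have h0 : (0 : ℝ) ≤ (S.card : ℝ) := Nat.cast_nonneg _
    set s : ℝ := (S.card : ℝ) with hs
    have h1 : 1 / √((a : ℝ) + 1) ≤ 1 / √(s + 1) := by
      apply one_div_le_one_div_of_le (by positivity)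
      exact Real.sqrt_le_sqrt (by linarith)
    have h2 : 1 / √(s + 1) + 2 * √s ≤ 2 * √(s + 1) := by
      have hp : 0 < √(s + 1) := by positivity
      have e1 : √(s + 1) ^ 2 = s + 1 := Real.sq_sqrt (by linarith)
      have e2 : √s ^ 2 = s := Real.sq_sqrt h0
      have e3 : √s ≤ √(s + 1) := Real.sqrt_le_sqrt (by linarith)
      rw [div_add' _ _ _ hp.ne', div_le_iff₀ hp]
      nlinarith [Real.sqrt_nonneg s, sq_nonneg (√(s + 1) - √s)]
    push_cast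
    linarith

lemma sum_v_le (A : Finset ℕ) (k : ℕ) :
    ∑ n ∈ A with kap n = k, v n ≤ 2 * √(((A.filter (fun n => kap n = k)).card : ℕ) : ℝ) := by
  set S := A.filter (fun n => kap n = k) with hS
  have hmem : ∀ n ∈ S, 2 ^ k - 1 ≤ n ∧ n - (2 ^ k - 1) < 2 ^ k := by
    intro n hn
    have h : n ∈ B k := mem_B.2 (Finset.mem_filter.1 hn).2
    rw [B, Finset.mem_Ico] at h
    have h1 : 1 ≤ 2 ^ k := Nat.one_le_two_pow
    have h2 : 2 ^ (k + 1) = 2 * 2 ^ k := by ring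
    omega
  have hinj : Set.InjOn (fun n => n - (2 ^ k - 1)) (S : Set ℕ) := by
    intro a ha b hb hab
    have h1 := (hmem a ha).1
    have h2 := (hmem b hb).1
    simp only at hab
    omega
  have h := sum_inv_sqrt_le (S.image (fun n => n - (2 ^ k - 1)))
  rw [Finset.sum_image (fun a ha b hb hab => hinj ha hb hab),
    Finset.card_image_of_injOn hinj] at h
  refine le_trans (le_of_eq ?_) h
  apply Finset.sum_congr rfl
  intro n hn
  obtain ⟨h1, h2⟩ := hmem n hn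
  have := v_idx h2
  rw [← this]
  congr 1
  omega

/-! ### Vectors of `ℓ₂` -/

section vectors

variable (𝕜)

/-- unit vectors -/
noncomputable def e (n : ℕ) : Ell 𝕜 := lp.single 2 n (1 : 𝕜)

/-- block vectors -/
noncomputable def W (k : ℕ) : Ell 𝕜 := ∑ n ∈ B k, ((v n : ℝ) : 𝕜) • e 𝕜 n

/-- perturbed unit vectors -/
noncomputable def y (g : ℕ → ℝ) (n : ℕ) : Ell 𝕜 :=
  e 𝕜 n + (((g (kap n) * v n : ℝ)) : 𝕜) • W 𝕜 (kap n)

end vectors

lemma smul_e (t : 𝕜) (n : ℕ) : t • e 𝕜 n = lp.single 2 n t := by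
  rw [e, ← lp.single_smul, smul_eq_mul, mul_one]

lemma norm_sq_sum_e (S : Finset ℕ) (t : ℕ → 𝕜) :
    ‖∑ n ∈ S, t n • e 𝕜 n‖ ^ 2 = ∑ n ∈ S, ‖t n‖ ^ 2 := by
  have h := lp.norm_sum_single (E := fun _ : ℕ => 𝕜) (p := 2) (by norm_num) t S
  simp only [smul_e]
  have h2 : (2 : ℝ≥0∞).toReal = ((2 : ℕ) : ℝ) := by norm_num
  rw [h2] at h
  simpa only [Real.rpow_natCast] using h

lemma inner_e_left (n : ℕ) (f : Ell 𝕜) : ⟪e 𝕜 n, f⟫_𝕜 = f n := by
  rw [e, lp.inner_single_left]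
  simp

lemma e_apply (n m : ℕ) : (e 𝕜 n : ℕ → 𝕜) m = if n = m then 1 else 0 := by
  rw [e, lp.single_apply]
  by_cases h : n = m
  · subst h; simp
  · rw [if_neg h, Pi.single_eq_of_ne (Ne.symm h)]

lemma inner_e_e (n m : ℕ) : ⟪e 𝕜 n, e 𝕜 m⟫_𝕜 = if n = m then 1 else 0 := by
  rw [inner_e_left, e_apply]
  by_cases h : n = m
  · subst h; simp
  · rw [if_neg h, if_neg (Ne.symm h)]

lemma inner_e_W (n k : ℕ) : ⟪e 𝕜 n, W 𝕜 k⟫_𝕜 = if kap n = k then ((v n : ℝ) : 𝕜) else 0 := by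
  rw [W, inner_sum]
  simp only [inner_smul_right, inner_e_e]
  by_cases h : kap n = k
  · rw [if_pos h, Finset.sum_eq_single n]
    · simp
    · intro m _ hm
      rw [if_neg (Ne.symm hm), mul_zero]
    · intro hn
      exact absurd (mem_B.2 h) hn
  · rw [if_neg h]
    apply Finset.sum_eq_zero
    intro m hm
    rw [if_neg, mul_zero]
    rintro rfl
    exact h (mem_B.1 hm)

lemma inner_W_e (n k : ℕ) : ⟪W 𝕜 k, e 𝕜 n⟫_𝕜 = if kap n = k then ((v n : ℝ) : 𝕜) else 0 := by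
  rw [← inner_conj_symm, inner_e_W]
  split_ifs
  · exact RCLike.conj_ofReal _
  · exact map_zero _

lemma inner_W_W (k l : ℕ) : ⟪W 𝕜 k, W 𝕜 l⟫_𝕜 = if k = l then ((L k : ℝ) : 𝕜) else 0 := by
  nth_rewrite 1 [W]
  rw [sum_inner]
  simp only [inner_smul_left, inner_e_W, RCLike.conj_ofReal]
  by_cases h : k = l
  · subst h
    rw [if_pos rfl, ← sum_v_sq]
    push_cast
    apply Finset.sum_congr rfl
    intro n hn
    rw [if_pos (mem_B.1 hn)]
    ring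
  · rw [if_neg h]
    apply Finset.sum_eq_zero
    intro n hn
    rw [if_neg, mul_zero]
    rw [mem_B.1 hn]
    exact h

lemma norm_e (n : ℕ) : ‖e 𝕜 n‖ = 1 := by
  rw [e, lp.norm_single (by norm_num)]
  simp

lemma norm_W (k : ℕ) : ‖W 𝕜 k‖ = √(L k) := by
  have h : ‖W 𝕜 k‖ ^ 2 = L k := by
    rw [W, norm_sq_sum_e, ← sum_v_sq]
    apply Finset.sum_congr rfl
    intro n _
    rw [RCLike.norm_ofReal, sq_abs]
  rw [← h, Real.sqrt_sq (norm_nonneg _)]

lemma norm_y_le {g : ℕ → ℝ} (hg : ∀ k, |g k| ≤ c k) (n : ℕ) : ‖y 𝕜 g n‖ ≤ 2 := by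
  unfold y
  refine (norm_add_le _ _).trans ?_
  rw [norm_e, norm_smul, norm_W, RCLike.norm_ofReal, abs_mul, abs_of_pos (v_pos n)]
  have h1 : |g (kap n)| * v n * √(L (kap n)) ≤ c (kap n) * 1 * √(L (kap n)) := by
    have := hg (kap n)
    have := v_le_one n
    have := v_pos n
    have := c_pos (kap n)
    gcongr
  have h2 : c (kap n) * 1 * √(L (kap n)) = 1 := by
    unfold c
    have := L_pos (kap n)
    have : √(L (kap n)) ≠ 0 := by positivity
    field_simp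
  linarith

/-- Norm of combinations of the block vectors. -/
lemma norm_sq_sum_W (K : Finset ℕ) (t : ℕ → 𝕜) :
    ‖∑ k ∈ K, t k • W 𝕜 k‖ ^ 2 = ∑ k ∈ K, ‖t k‖ ^ 2 * L k := by
  have hdisj : (K : Set ℕ).PairwiseDisjoint B := by
    intro a _ b _ hab
    rw [Function.onFun, Finset.disjoint_left]
    intro n hn hn'
    exact hab ((mem_B.1 hn).symm.trans (mem_B.1 hn'))
  have h1 : ∑ k ∈ K, t k • W 𝕜 k = ∑ n ∈ K.biUnion B, (t (kap n) * ((v n : ℝ) : 𝕜)) • e 𝕜 n := by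
    rw [Finset.sum_biUnion hdisj]
    apply Finset.sum_congr rfl
    intro k _
    rw [W, Finset.smul_sum]
    apply Finset.sum_congr rfl
    intro n hn
    rw [mem_B.1 hn, smul_smul]
  rw [h1, norm_sq_sum_e, Finset.sum_biUnion hdisj]
  apply Finset.sum_congr rfl
  intro k _
  rw [← sum_v_sq, Finset.mul_sum]
  apply Finset.sum_congr rfl
  intro n hn
  rw [mem_B.1 hn, norm_mul, RCLike.norm_ofReal, mul_pow, sq_abs]

lemma sum_y (g : ℕ → ℝ) (A : Finset ℕ) (t : ℕ → 𝕜) :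
    ∑ n ∈ A, t n • y 𝕜 g n = ∑ n ∈ A, t n • e 𝕜 n +
      ∑ k ∈ A.image kap, (((g k : ℝ) : 𝕜) * ∑ n ∈ A with kap n = k, t n * ((v n : ℝ) : 𝕜)) •
        W 𝕜 k := by
  simp only [y, smul_add, Finset.sum_add_distrib]
  congr 1
  rw [← Finset.sum_fiberwise_of_maps_to (s := A) (t := A.image kap) (g := kap)
    (fun n hn => Finset.mem_image_of_mem _ hn)]
  apply Finset.sum_congr rfl
  intro k _
  rw [Finset.mul_sum, Finset.sum_smul]
  apply Finset.sum_congr rfl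
  intro n hn
  rw [(Finset.mem_filter.1 hn).2, smul_smul]
  congr 1
  push_cast
  ring

lemma norm_sum_y_le {g : ℕ → ℝ} (hg : ∀ k, |g k| ≤ c k) (A : Finset ℕ) (ε : ℕ → 𝕜)
    (hε : ∀ n, ‖ε n‖ = 1) : ‖∑ n ∈ A, ε n • y 𝕜 g n‖ ≤ 3 * √(A.card : ℝ) := by
  rw [sum_y]
  refine (norm_add_le _ _).trans ?_
  have h1 : ‖∑ n ∈ A, ε n • e 𝕜 n‖ = √(A.card : ℝ) := by
    rw [← Real.sqrt_sq (norm_nonneg (∑ n ∈ A, ε n • e 𝕜 n)), norm_sq_sum_e]
    simp [hε]
  have h2 : ‖∑ k ∈ A.image kap, (((g k : ℝ) : 𝕜) *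
      ∑ n ∈ A with kap n = k, ε n * ((v n : ℝ) : 𝕜)) • W 𝕜 k‖ ≤ 2 * √(A.card : ℝ) := by
    refine (sq_le_sq₀ (norm_nonneg _) (by positivity)).1 ?_
    rw [norm_sq_sum_W, mul_pow, Real.sq_sqrt (Nat.cast_nonneg _)]
    have h3 : ∀ k ∈ A.image kap, ‖((g k : ℝ) : 𝕜) *
        ∑ n ∈ A with kap n = k, ε n * ((v n : ℝ) : 𝕜)‖ ^ 2 * L k ≤
        2 ^ 2 * ((A.filter (fun n => kap n = k)).card : ℝ) := by
      intro k _
      have h4 : ‖∑ n ∈ A with kap n = k, ε n * ((v n : ℝ) : 𝕜)‖ ≤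
          2 * √(((A.filter (fun n => kap n = k)).card : ℕ) : ℝ) := by
        refine (norm_sum_le _ _).trans (le_trans (le_of_eq ?_) (sum_v_le A k))
        apply Finset.sum_congr rfl
        intro n _
        rw [norm_mul, hε, one_mul, RCLike.norm_ofReal, abs_of_pos (v_pos n)]
      rw [norm_mul, RCLike.norm_ofReal, mul_pow]
      have h5 : |g k| ^ 2 * L k ≤ 1 := by
        rw [← c_sq_mul_L k]
        have := L_pos k
        have := hg k
        gcongr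
      have h6 : ‖∑ n ∈ A with kap n = k, ε n * ((v n : ℝ) : 𝕜)‖ ^ 2 ≤
          2 ^ 2 * ((A.filter (fun n => kap n = k)).card : ℝ) := by
        refine (pow_le_pow_left₀ (norm_nonneg _) h4 2).trans (le_of_eq ?_)
        rw [mul_pow, Real.sq_sqrt (Nat.cast_nonneg _)]
      calc |g k| ^ 2 * ‖∑ n ∈ A with kap n = k, ε n * ((v n : ℝ) : 𝕜)‖ ^ 2 * L k
          = (|g k| ^ 2 * L k) * ‖∑ n ∈ A with kap n = k, ε n * ((v n : ℝ) : 𝕜)‖ ^ 2 := by ring
        _ ≤ 1 * ‖∑ n ∈ A with kap n = k, ε n * ((v n : ℝ) : 𝕜)‖ ^ 2 := by gcongr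
        _ ≤ _ := by rw [one_mul]; exact h6
    refine (Finset.sum_le_sum h3).trans (le_of_eq ?_)
    rw [← Finset.mul_sum]
    congr 1
    have := Finset.card_eq_sum_card_image kap A
    exact_mod_cast this.symm
  linarith

/-! ### Biorthogonality, density, totality -/

lemma sum_v_y (g : ℕ → ℝ) (k : ℕ) :
    ∑ n ∈ B k, ((v n : ℝ) : 𝕜) • y 𝕜 g n = ((1 + g k * L k : ℝ) : 𝕜) • W 𝕜 k := by
  have h1 : ∀ n ∈ B k, ((v n : ℝ) : 𝕜) • y 𝕜 g n =
      ((v n : ℝ) : 𝕜) • e 𝕜 n + (((g k * v n ^ 2 : ℝ)) : 𝕜) • W 𝕜 k := by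
    intro n hn
    rw [y, mem_B.1 hn, smul_add, smul_smul]
    congr 2
    push_cast
    ring
  rw [Finset.sum_congr rfl h1, Finset.sum_add_distrib, ← Finset.sum_smul, ← W]
  have h2 : ∑ n ∈ B k, (((g k * v n ^ 2 : ℝ)) : 𝕜) = ((g k * L k : ℝ) : 𝕜) := by
    rw [← sum_v_sq, Finset.mul_sum]
    push_cast
    rfl
  rw [h2]
  push_cast
  rw [add_smul, one_smul]

lemma e_mem_span {g : ℕ → ℝ} (hg : ∀ k, 1 + g k * L k ≠ 0) (n : ℕ) :
    e 𝕜 n ∈ Submodule.span 𝕜 (Set.range (y 𝕜 g)) := by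
  have hW : W 𝕜 (kap n) ∈ Submodule.span 𝕜 (Set.range (y 𝕜 g)) := by
    have h : ((1 + g (kap n) * L (kap n) : ℝ) : 𝕜) • W 𝕜 (kap n) ∈
        Submodule.span 𝕜 (Set.range (y 𝕜 g)) := by
      rw [← sum_v_y]
      apply Submodule.sum_mem
      intro m _
      exact Submodule.smul_mem _ _ (Submodule.subset_span ⟨m, rfl⟩)
    have h0 : ((1 + g (kap n) * L (kap n) : ℝ) : 𝕜) ≠ 0 := by
      exact_mod_cast hg (kap n)
    exact (Submodule.smul_mem_iff _ h0).1 h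
  have h : e 𝕜 n = y 𝕜 g n - (((g (kap n) * v n : ℝ)) : 𝕜) • W 𝕜 (kap n) := by
    rw [y, add_sub_cancel_right]
  rw [h]
  exact Submodule.sub_mem _ (Submodule.subset_span ⟨n, rfl⟩) (Submodule.smul_mem _ _ hW)

lemma eq_zero_of_inner_y {g : ℕ → ℝ} (hg : ∀ k, 1 + g k * L k ≠ 0) (f : Ell 𝕜)
    (hf : ∀ n, ⟪y 𝕜 g n, f⟫_𝕜 = 0) : f = 0 := by
  have h : ∀ z ∈ Submodule.span 𝕜 (Set.range (y 𝕜 g)), ⟪z, f⟫_𝕜 = 0 := by
    intro z hz
    induction hz using Submodule.span_induction with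
    | mem z hz => obtain ⟨n, rfl⟩ := hz; exact hf n
    | zero => exact inner_zero_left _
    | add a b _ _ ha hb => rw [inner_add_left, ha, hb, add_zero]
    | smul t a _ ha => rw [inner_smul_left, ha, mul_zero]
  apply lp.ext
  funext n
  rw [← inner_e_left, h _ (e_mem_span hg n)]
  rfl

lemma dense_span_y {g : ℕ → ℝ} (hg : ∀ k, 1 + g k * L k ≠ 0) :
    Dense (Submodule.span 𝕜 (Set.range (y 𝕜 g)) : Set (Ell 𝕜)) := by
  rw [Submodule.dense_iff_topologicalClosure_eq_top, Submodule.topologicalClosure_eq_top_iff,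
    Submodule.eq_bot_iff]
  intro f hf
  apply eq_zero_of_inner_y hg f
  intro n
  exact (Submodule.mem_orthogonal _ f).1 hf _ (Submodule.subset_span ⟨n, rfl⟩)

lemma inner_y_y {g g' : ℕ → ℝ} (h : ∀ k, g k + g' k + g k * g' k * L k = 0) (n m : ℕ) :
    ⟪y 𝕜 g' n, y 𝕜 g m⟫_𝕜 = if n = m then 1 else 0 := by
  unfold y
  rw [inner_add_left, inner_add_right, inner_add_right, inner_smul_left, inner_smul_right,
    inner_smul_left, inner_smul_right, inner_e_e, inner_e_W, inner_W_e, inner_W_W,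
    RCLike.conj_ofReal]
  by_cases hk : kap n = kap m
  · rw [if_pos hk, if_pos hk.symm, if_pos hk, hk]
    have h2 := h (kap m)
    have h3 : (((g (kap m) * v m : ℝ)) : 𝕜) * ((v n : ℝ) : 𝕜) +
        ((((g' (kap m) * v n : ℝ)) : 𝕜) * ((v m : ℝ) : 𝕜) +
        ((((g' (kap m) * v n : ℝ)) : 𝕜) * ((((g (kap m) * v m : ℝ)) : 𝕜) *
          ((L (kap m) : ℝ) : 𝕜)))) = 0 := by
      have : (g (kap m) * v m) * v n + ((g' (kap m) * v n) * v m + (g' (kap m) * v n) *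
          ((g (kap m) * v m) * L (kap m))) = 0 := by
        linear_combination (v m * v n) * h2
      exact_mod_cast this
    rw [add_assoc, h3, add_zero]
  · rw [if_neg hk, if_neg (Ne.symm hk), if_neg hk]
    simp

/-! ### The basis -/

/-- coefficients of the basis: even blocks are of the first kind, odd blocks of the dual kind -/
noncomputable def g₀ (k : ℕ) : ℝ := if Even k then c k else - (c k / (1 + √(L k)))

/-- coefficients of the dual basis -/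
noncomputable def g₁ (k : ℕ) : ℝ := if Even k then - (c k / (1 + √(L k))) else c k

lemma aux_le (k : ℕ) : |- (c k / (1 + √(L k)))| ≤ c k := by
  have := c_pos k
  have h : 0 ≤ √(L k) := Real.sqrt_nonneg _
  rw [abs_neg, abs_of_pos (by positivity)]
  exact div_le_self this.le (by linarith)

lemma g₀_le (k : ℕ) : |g₀ k| ≤ c k := by
  unfold g₀
  split_ifs
  · rw [abs_of_pos (c_pos k)]
  · exact aux_le k

lemma g₁_le (k : ℕ) : |g₁ k| ≤ c k := by
  unfold g₁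
  split_ifs
  · exact aux_le k
  · rw [abs_of_pos (c_pos k)]

lemma g_rel (k : ℕ) : g₀ k + g₁ k + g₀ k * g₁ k * L k = 0 := by
  have h : 0 ≤ √(L k) := Real.sqrt_nonneg _
  have h1 := c_mul_L k
  have h2 : 1 + √(L k) ≠ 0 := by positivity
  unfold g₀ g₁
  split_ifs
  · field_simp
    linear_combination (- c k) * h1
  · field_simp
    linear_combination (- c k) * h1

lemma aux_ne (k : ℕ) : 1 + - (c k / (1 + √(L k))) * L k = 1 / (1 + √(L k)) := by
  have h : 0 ≤ √(L k) := Real.sqrt_nonneg _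
  have h1 := c_mul_L k
  have h2 : 1 + √(L k) ≠ 0 := by positivity
  field_simp
  linear_combination - h1

lemma g₀_ne (k : ℕ) : 1 + g₀ k * L k ≠ 0 := by
  have h : 0 ≤ √(L k) := Real.sqrt_nonneg _
  unfold g₀
  split_ifs
  · rw [c_mul_L]; positivity
  · rw [aux_ne]; positivity

lemma g₁_ne (k : ℕ) : 1 + g₁ k * L k ≠ 0 := by
  have h : 0 ≤ √(L k) := Real.sqrt_nonneg _
  unfold g₁
  split_ifs
  · rw [aux_ne]; positivity
  · rw [c_mul_L]; positivity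

/-- the functionals -/
noncomputable def ys (𝕜 : Type*) [RCLike 𝕜] (n : ℕ) : Ell 𝕜 →L[𝕜] 𝕜 := innerSL 𝕜 (y 𝕜 g₁ n)

lemma isBasis : IsBasis (y 𝕜 g₀) (ys 𝕜) where
  biorthogonal n k := by
    rw [ys, innerSL_apply_apply]
    exact inner_y_y g_rel n k
  dense_span := dense_span_y g₀_ne
  separating f hf := eq_zero_of_inner_y g₁_ne f hf
  bounded := ⟨2, fun n => ⟨norm_y_le g₀_le n, by
    rw [ys, innerSL_apply_norm]; exact norm_y_le g₁_le n⟩⟩

lemma norm_sum_ys_le (A : Finset ℕ) (ε : ℕ → 𝕜)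
    (hε : ∀ n, ‖ε n‖ = 1) : ‖∑ n ∈ A, ε n • ys 𝕜 n‖ ≤ 3 * √(A.card : ℝ) := by
  have h : ∑ n ∈ A, ε n • ys 𝕜 n =
      innerSL 𝕜 (∑ n ∈ A, (starRingEnd 𝕜 (ε n)) • y 𝕜 g₁ n) := by
    rw [map_sum]
    apply Finset.sum_congr rfl
    intro n _
    rw [ys, map_smulₛₗ, RCLike.conj_conj]
  rw [h, innerSL_apply_norm]
  apply norm_sum_y_le g₁_le
  intro n
  rw [RCLike.norm_conj, hε]

lemma phi_le {E : Type*} [NormedAddCommGroup E] [NormedSpace 𝕜 E] (z : ℕ → E)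
    (hz : ∀ (A : Finset ℕ) (ε : ℕ → 𝕜), (∀ n, ‖ε n‖ = 1) →
      ‖∑ n ∈ A, ε n • z n‖ ≤ 3 * √(A.card : ℝ)) (m : ℕ) :
    phi 𝕜 z m ≤ ENNReal.ofReal (3 * √(m : ℝ)) := by
  unfold phi
  refine iSup_le fun A => iSup_le fun hA => iSup_le fun ε => iSup_le fun hε => ?_
  rw [← ofReal_norm]
  apply ENNReal.ofReal_le_ofReal
  refine (hz A ε hε).trans ?_
  have : (A.card : ℝ) ≤ m := by exact_mod_cast hA
  have := Real.sqrt_le_sqrt this
  linarith

lemma bidemocratic : Bidemocratic (y 𝕜 g₀) (ys 𝕜) := by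
  refine ⟨9, fun m => ?_⟩
  have p1 : phi 𝕜 (y 𝕜 g₀) m ≤ ENNReal.ofReal (3 * √(m : ℝ)) :=
    phi_le (E := Ell 𝕜) (y 𝕜 g₀) (fun A ε hε => norm_sum_y_le g₀_le A ε hε) m
  have p2 : phi 𝕜 (ys 𝕜) m ≤ ENNReal.ofReal (3 * √(m : ℝ)) :=
    phi_le (E := Ell 𝕜 →L[𝕜] 𝕜) (ys 𝕜) (fun A ε hε => norm_sum_ys_le A ε hε) m
  refine (mul_le_mul' p1 p2).trans ?_
  rw [← ENNReal.ofReal_mul (by positivity)]
  have h : 3 * √(m : ℝ) * (3 * √(m : ℝ)) = 9 * m := by
    have := Real.mul_self_sqrt (Nat.cast_nonneg (α := ℝ) m)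
    linear_combination 9 * this
  rw [h, ENNReal.ofReal_mul (by norm_num), ENNReal.ofReal_natCast]
  apply le_of_eq
  congr 1
  norm_num

/-! ### Lorentz norms of the weight -/

/-- the weight restricted to the `k`-th block -/
noncomputable def vb (𝕜 : Type*) [RCLike 𝕜] (k : ℕ) (n : ℕ) : 𝕜 :=
  if kap n = k then ((v n : ℝ) : 𝕜) else 0

lemma enorm_vb_idx {k j : ℕ} (hj : j < 2 ^ k) :
    ‖vb 𝕜 k (2 ^ k - 1 + j)‖ₑ = ENNReal.ofReal (1 / √((j : ℝ) + 1)) := by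
  rw [vb, if_pos (kap_idx hj), v_idx hj, ← ofReal_norm, RCLike.norm_ofReal,
    abs_of_nonneg (by positivity)]

lemma enorm_vb_of_ne {k n : ℕ} (h : kap n ≠ k) : ‖vb 𝕜 k n‖ₑ = 0 := by
  rw [vb, if_neg h, enorm_zero]

lemma exists_idx {k n : ℕ} (h : kap n = k) : ∃ j, j < 2 ^ k ∧ n = 2 ^ k - 1 + j := by
  have h' : n ∈ B k := mem_B.2 h
  rw [B, Finset.mem_Ico] at h'
  have h1 : 1 ≤ 2 ^ k := Nat.one_le_two_pow
  have h2 : 2 ^ (k + 1) = 2 * 2 ^ k := by ring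
  exact ⟨n - (2 ^ k - 1), by omega, by omega⟩

lemma ofReal_lt_iff {i j : ℕ} :
    ENNReal.ofReal (1 / √((i : ℝ) + 1)) < ENNReal.ofReal (1 / √((j : ℝ) + 1)) ↔ j < i := by
  rw [ENNReal.ofReal_lt_ofReal_iff (by positivity), one_div_lt_one_div (by positivity)
    (by positivity), Real.sqrt_lt_sqrt_iff (by positivity)]
  constructor
  · intro h
    have : (j : ℝ) < i := by linarith
    exact_mod_cast this
  · intro h
    have : (j : ℝ) < i := by exact_mod_cast h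
    linarith

lemma rearr_vb_of_lt {k i : ℕ} (hi : i < 2 ^ k) :
    rearr (vb 𝕜 k) i = ENNReal.ofReal (1 / √((i : ℝ) + 1)) := by
  apply le_antisymm
  · apply sInf_le
    have hsub : {n : ℕ | ENNReal.ofReal (1 / √((i : ℝ) + 1)) < ‖vb 𝕜 k n‖ₑ} ⊆
        ((range i).image (fun j => 2 ^ k - 1 + j) : Finset ℕ) := by
      intro n hn
      by_cases h : kap n = k
      · obtain ⟨j, hj, rfl⟩ := exists_idx h
        rw [Set.mem_ofPred_eq, enorm_vb_idx hj, ofReal_lt_iff] at hn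
        rw [Finset.mem_coe, Finset.mem_image]
        exact ⟨j, Finset.mem_range.2 hn, rfl⟩
      · rw [Set.mem_ofPred_eq, enorm_vb_of_ne h] at hn
        exact absurd hn (not_lt.2 zero_le)
    refine (Set.encard_le_encard hsub).trans ?_
    rw [Set.encard_coe_eq_coe_finsetCard]
    have : ((range i).image (fun j => 2 ^ k - 1 + j)).card ≤ i := by
      refine Finset.card_image_le.trans ?_
      rw [Finset.card_range]
    exact_mod_cast this
  · apply le_sInf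
    intro t ht
    by_contra hlt
    rw [not_le] at hlt
    have hsub : (((range (i + 1)).image (fun j => 2 ^ k - 1 + j) : Finset ℕ) : Set ℕ) ⊆
        {n : ℕ | t < ‖vb 𝕜 k n‖ₑ} := by
      intro n hn
      rw [Finset.mem_coe, Finset.mem_image] at hn
      obtain ⟨j, hj, rfl⟩ := hn
      have hj' : j ≤ i := Nat.lt_succ_iff.1 (Finset.mem_range.1 hj)
      rw [Set.mem_ofPred_eq, enorm_vb_idx (lt_of_le_of_lt hj' hi)]
      refine lt_of_lt_of_le hlt ?_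
      rw [← not_lt, ofReal_lt_iff]
      omega
    have h1 := (Set.encard_le_encard hsub).trans ht
    rw [Set.encard_coe_eq_coe_finsetCard, Finset.card_image_of_injective _ (by
      intro a b hab
      simp only at hab
      omega), Finset.card_range] at h1
    have h2 : i + 1 ≤ i := by exact_mod_cast h1
    omega

lemma rearr_vb_of_ge {k i : ℕ} (hi : 2 ^ k ≤ i) : rearr (vb 𝕜 k) i = 0 := by
  apply le_antisymm _ zero_le
  apply sInf_le
  have hsub : {n : ℕ | 0 < ‖vb 𝕜 k n‖ₑ} ⊆ (B k : Set ℕ) := by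
    intro n hn
    rw [Finset.mem_coe, mem_B]
    by_contra h
    rw [Set.mem_ofPred_eq, enorm_vb_of_ne h] at hn
    exact lt_irrefl _ hn
  refine (Set.encard_le_encard hsub).trans ?_
  rw [Set.encard_coe_eq_coe_finsetCard]
  have : (B k).card ≤ i := by
    refine le_trans (le_of_eq ?_) hi
    rw [Finset.card_eq_sum_ones, sum_B]
    simp
  exact_mod_cast this

lemma rearr_smul (t : ℝ≥0∞) (ht : t ≠ 0) (ht' : t ≠ ∞) (a b : ℕ → 𝕜)
    (h : ∀ n, ‖a n‖ₑ = t * ‖b n‖ₑ) (n : ℕ) : rearr a n = t * rearr b n := by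
  have key : ∀ (t : ℝ≥0∞) (_ : t ≠ 0) (_ : t ≠ ∞) (a b : ℕ → 𝕜)
      (_ : ∀ n, ‖a n‖ₑ = t * ‖b n‖ₑ), rearr a n ≤ t * rearr b n := by
    intro t ht ht' a b h
    unfold rearr
    rw [sInf_eq_iInf (s := {t : ℝ≥0∞ | {k : ℕ | t < ‖b k‖ₑ}.encard ≤ n}),
      ENNReal.mul_iInf_of_ne ht ht']
    refine le_iInf fun s => ?_
    rw [ENNReal.mul_iInf_of_ne ht ht']
    refine le_iInf fun hs => ?_
    apply sInf_le
    have : {k : ℕ | t * s < ‖a k‖ₑ} = {k : ℕ | s < ‖b k‖ₑ} := by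
      ext k
      rw [Set.mem_ofPred_eq, Set.mem_ofPred_eq, h, ENNReal.mul_lt_mul_iff_right ht ht']
    rw [Set.mem_ofPred_eq, this]
    exact hs
  apply le_antisymm (key t ht ht' a b h)
  have h2 : ∀ n, ‖b n‖ₑ = t⁻¹ * ‖a n‖ₑ := by
    intro n
    rw [h, ← mul_assoc, ENNReal.inv_mul_cancel ht ht', one_mul]
  have h3 := key t⁻¹ (ENNReal.inv_ne_zero.2 ht') (ENNReal.inv_ne_top.2 ht) b a h2
  calc t * rearr b n ≤ t * (t⁻¹ * rearr a n) := by gcongr
    _ = rearr a n := by rw [← mul_assoc, ENNReal.mul_inv_cancel ht ht', one_mul]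

lemma lorentz_vb {s : ℝ} (hs : 0 < s) (k : ℕ) :
    lorentz s (vb 𝕜 k) = ENNReal.ofReal (L k) ^ (1 / s) := by
  unfold lorentz
  congr 1
  rw [tsum_eq_sum (s := range (2 ^ k))]
  · rw [L, ENNReal.ofReal_sum_of_nonneg (fun _ _ => by positivity)]
    apply Finset.sum_congr rfl
    intro j hj
    rw [rearr_vb_of_lt (Finset.mem_range.1 hj)]
    have h1 : ((j : ℝ≥0∞) + 1) = ENNReal.ofReal ((j : ℝ) + 1) := by
      rw [ENNReal.ofReal_add (by positivity) (by positivity)]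
      simp
    rw [h1, ENNReal.ofReal_rpow_of_pos (by positivity), ENNReal.ofReal_rpow_of_pos (by positivity),
      ← ENNReal.ofReal_mul (by positivity)]
    congr 1
    have hp : (0 : ℝ) < (j : ℝ) + 1 := by positivity
    rw [Real.sqrt_eq_rpow, one_div, ← Real.rpow_neg hp.le, ← Real.rpow_mul hp.le,
      ← Real.rpow_add hp, one_div ((j : ℝ) + 1), ← Real.rpow_neg_one]
    congr 1
    ring
  · intro j hj
    rw [rearr_vb_of_ge (by simpa using hj), ENNReal.zero_rpow_of_pos hs, zero_mul]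

lemma lorentz_smul {s : ℝ} (hs : 0 < s) (t : ℝ≥0∞) (ht : t ≠ 0) (ht' : t ≠ ∞) (a b : ℕ → 𝕜)
    (h : ∀ n, ‖a n‖ₑ = t * ‖b n‖ₑ) : lorentz s a = t * lorentz s b := by
  unfold lorentz
  have h1 : ∀ n : ℕ, rearr a n ^ s * ((n : ℝ≥0∞) + 1) ^ (s / 2 - 1) =
      t ^ s * (rearr b n ^ s * ((n : ℝ≥0∞) + 1) ^ (s / 2 - 1)) := by
    intro n
    rw [rearr_smul t ht ht' a b h, ENNReal.mul_rpow_of_nonneg _ _ hs.le, mul_assoc]
  simp only [h1]
  rw [ENNReal.tsum_mul_left, ENNReal.mul_rpow_of_nonneg _ _ (by positivity), ← ENNReal.rpow_mul,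
    mul_one_div_cancel hs.ne', ENNReal.rpow_one]

/-! ### Failure of the embeddings -/

lemma exists_gt_even (K : ℝ) {p : ℝ} (hp : 0 < p) : ∃ k, Even k ∧ K < L k ^ p := by
  have h := (tendsto_rpow_atTop hp).comp tendsto_L
  obtain ⟨N, hN⟩ := Filter.eventually_atTop.1 (h.eventually (Filter.eventually_gt_atTop K))
  exact ⟨2 * N, even_two_mul N, hN (2 * N) (by omega)⟩

lemma exists_gt_odd (K : ℝ) {p : ℝ} (hp : 0 < p) : ∃ k, ¬ Even k ∧ K < L k ^ p := by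
  have h := (tendsto_rpow_atTop hp).comp tendsto_L
  obtain ⟨N, hN⟩ := Filter.eventually_atTop.1 (h.eventually (Filter.eventually_gt_atTop K))
  refine ⟨2 * N + 1, ?_, hN (2 * N + 1) (by omega)⟩
  rw [Nat.not_even_iff_odd]
  exact odd_two_mul_add_one N

lemma not_lorentzInto {q : ℝ} (hq : 1 < q) : ¬ LorentzInto 𝕜 q (y 𝕜 g₀) := by
  rintro ⟨C, hC⟩
  have hq0 : 0 < q := by linarith
  obtain ⟨k, hk, hlt⟩ := exists_gt_even C (p := 1 - 1 / q) (by
    rw [sub_pos, div_lt_one hq0]; exact hq)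
  have hmem : ∀ n, vb 𝕜 k n ≠ 0 → n ∈ B k := by
    intro n hn
    rw [mem_B]
    by_contra h
    exact hn (by rw [vb, if_neg h])
  have h := hC (Finsupp.onFinset (B k) (vb 𝕜 k) hmem)
  rw [Finsupp.onFinset_sum hmem (g := fun n t => t • y 𝕜 g₀ n) (fun n => zero_smul _ _)] at h
  have hcoe : (⇑(Finsupp.onFinset (B k) (vb 𝕜 k) hmem) : ℕ → 𝕜) = vb 𝕜 k := rfl
  rw [hcoe] at h
  have h1 : ∑ n ∈ B k, vb 𝕜 k n • y 𝕜 g₀ n = ((1 + g₀ k * L k : ℝ) : 𝕜) • W 𝕜 k := by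
    rw [← sum_v_y]
    apply Finset.sum_congr rfl
    intro n hn
    rw [vb, if_pos (mem_B.1 hn)]
  have hL := L_pos k
  have hsq : √(L k) * √(L k) = L k := Real.mul_self_sqrt hL.le
  have hs0 : 0 ≤ √(L k) := Real.sqrt_nonneg _
  have h2 : ‖((1 + g₀ k * L k : ℝ) : 𝕜) • W 𝕜 k‖ = √(L k) + L k := by
    rw [norm_smul, norm_W, RCLike.norm_ofReal, g₀, if_pos hk, c_mul_L,
      abs_of_nonneg (by positivity)]
    linear_combination hsq
  rw [h1, ← ofReal_norm, h2, lorentz_vb hq0, ENNReal.ofReal_rpow_of_pos hL,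
    ← ENNReal.ofReal_coe_nnreal, ← ENNReal.ofReal_mul (p := (C : ℝ)) C.2,
    ENNReal.ofReal_le_ofReal_iff (by positivity)] at h
  have h3 : L k ^ (1 - 1 / q) * L k ^ (1 / q) = L k := by
    rw [← Real.rpow_add hL]
    have : 1 - 1 / q + 1 / q = 1 := by ring
    rw [this, Real.rpow_one]
  have h4 : (C : ℝ) * L k ^ (1 / q) < L k := by
    nth_rewrite 2 [← h3]
    have : 0 < L k ^ (1 / q) := Real.rpow_pos_of_pos hL _
    exact mul_lt_mul_of_pos_right hlt this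
  linarith

lemma not_intoLorentz {r : ℝ} (hr : 0 < r) : ¬ IntoLorentz r (ys 𝕜) := by
  rintro ⟨C, hC⟩
  obtain ⟨k, hk, hlt⟩ := exists_gt_odd C (p := 1 / r) (by positivity)
  have h := hC (W 𝕜 k)
  have hL := L_pos k
  have hs0 : 0 < √(L k) := Real.sqrt_pos.2 hL
  have h1 : ∀ n, ys 𝕜 n (W 𝕜 k) = ((1 + √(L k) : ℝ) : 𝕜) * vb 𝕜 k n := by
    intro n
    rw [ys, innerSL_apply_apply, y, inner_add_left, inner_smul_left, inner_e_W, inner_W_W,
      RCLike.conj_ofReal, vb]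
    by_cases hn : kap n = k
    · rw [if_pos hn, if_pos hn, hn, g₁, if_neg hk]
      have : v n + c k * v n * L k = (1 + √(L k)) * v n := by
        rw [← c_mul_L]; ring
      exact_mod_cast this
    · rw [if_neg hn, if_neg hn]
      simp
  have h2 : lorentz r (fun n => ys 𝕜 n (W 𝕜 k)) =
      ENNReal.ofReal (1 + √(L k)) * lorentz r (vb 𝕜 k) := by
    apply lorentz_smul hr _ (by rw [Ne, ENNReal.ofReal_eq_zero]; push Not; positivity)
      ENNReal.ofReal_ne_top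
    intro n
    rw [h1, enorm_mul, ← ofReal_norm, RCLike.norm_ofReal, abs_of_pos (by positivity)]
  rw [h2, lorentz_vb hr, ENNReal.ofReal_rpow_of_pos hL, ← ofReal_norm, norm_W,
    ← ENNReal.ofReal_mul (by positivity), ← ENNReal.ofReal_coe_nnreal,
    ← ENNReal.ofReal_mul (p := (C : ℝ)) C.2, ENNReal.ofReal_le_ofReal_iff (by positivity)] at h
  have h3 : (C : ℝ) * √(L k) < (1 + √(L k)) * L k ^ (1 / r) := by
    have hp : 0 < L k ^ (1 / r) := Real.rpow_pos_of_pos hL _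
    calc (C : ℝ) * √(L k) < L k ^ (1 / r) * √(L k) := mul_lt_mul_of_pos_right hlt hs0
      _ ≤ (1 + √(L k)) * L k ^ (1 / r) := by nlinarith
  linarith

/-- There is a bidemocratic basis of `ℓ₂` for which the embedding of `ℓ_{2,q}` into `ℓ₂` fails for
every `q > 1`, and the embedding of `ℓ₂` into `ℓ_{2,r}` fails for every `0 < r < ∞`. -/
theorem result (𝕜 : Type*) [RCLike 𝕜] : HasUnsqueezableBasis 𝕜 (lp (fun _ : ℕ => 𝕜) 2) :=
  ⟨y 𝕜 g₀, ys 𝕜, isBasis, bidemocratic, fun _ hq => not_lorentzInto hq,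
    fun _ hr => not_intoLorentz hr⟩

end Pool.Agent.Results.MP_c77635_an.NoLorentzSqueezing
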